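import Mathlib
import Pool.Agent.Y4.P.Jobs
import Pool.Agent.Y4.G.Loc
import Pool.Agent.Y90.Pie4

/-!
# Elements of rank one: the unitary case

The positive part of the image of the Lie algebra in the endomorphisms of an irreducible submodule
of prime dimension is everything, by the theorem on coprime signatures. Hence there are elements of
rank one.
-/

set_option linter.unusedSectionVars false

namespace Pool.Agent.Y319.P

open Matrix Module Pool.Agent.Y90 Pool.Agent.W437.HC Pool.Agent.W437.HD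
open Pool.Agent.W548.Odd hiding cv
open Pool.Agent.Y4.G (hermZ' sa_conj)

open scoped ComplexOrder

noncomputable section

section gen

variable {B : Type*} [Fintype B] [DecidableEq B]

/-- The orthogonal projector onto a subspace. -/
theorem exists_orth (W : Submodule ℂ (B → ℂ)) : ∃ p : Matrix B B ℂ, p * p = p ∧ pᴴ = p ∧
    ∀ v, p *ᵥ v = v ↔ v ∈ W := by
  let e : (B → ℂ) ≃ₗ[ℂ] EuclideanSpace ℂ B := (WithLp.linearEquiv 2 ℂ (B → ℂ)).symm
  let W' : Submodule ℂ (EuclideanSpace ℂ B) := W.map (e : (B → ℂ) →ₗ[ℂ] EuclideanSpace ℂ B)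
  let f : (B → ℂ) →ₗ[ℂ] (B → ℂ) := (e.symm : EuclideanSpace ℂ B →ₗ[ℂ] (B → ℂ)) ∘ₗ
    (W'.starProjection : EuclideanSpace ℂ B →ₗ[ℂ] EuclideanSpace ℂ B) ∘ₗ
      (e : (B → ℂ) →ₗ[ℂ] EuclideanSpace ℂ B)
  have hf : ∀ v, f v = e.symm (W'.starProjection (e v)) := fun v => rfl
  have hff : ∀ v, f v = v ↔ v ∈ W := by
    intro v
    rw [hf]
    constructor
    · intro h
      have h1 : W'.starProjection (e v) = e v := by
        have h0 := congrArg e h
        rwa [LinearEquiv.apply_symm_apply] at h0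
      rw [Submodule.starProjection_eq_self_iff] at h1
      obtain ⟨w, hw, hw'⟩ := h1
      have h2 : w = v := e.injective hw'
      rwa [← h2]
    · intro h
      have h1 : W'.starProjection (e v) = e v :=
        Submodule.starProjection_eq_self_iff.2 ⟨v, h, rfl⟩
      rw [h1, LinearEquiv.symm_apply_apply]
  have hmem : ∀ v, f v ∈ W := by
    intro v
    have h1 : W'.starProjection (e v) ∈ W' := Submodule.starProjection_apply_mem W' (e v)
    obtain ⟨w, hw, hw'⟩ := h1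
    have h2 : f v = w := by
      rw [hf, ← hw']
      exact e.symm_apply_apply w
    rw [h2]
    exact hw
  have hsa : ∀ v w, star (f v) ⬝ᵥ w = star v ⬝ᵥ f w := by
    intro v w
    have h1 := W'.inner_starProjection_left_eq_right (e v) (e w)
    rw [EuclideanSpace.inner_eq_star_dotProduct, EuclideanSpace.inner_eq_star_dotProduct] at h1
    rw [dotProduct_comm, dotProduct_comm (star v)]
    exact h1
  obtain ⟨p, hp⟩ : ∃ p : Matrix B B ℂ, ∀ v, p *ᵥ v = f v :=
    ⟨LinearMap.toMatrix' f, fun v => LinearMap.toMatrix'_mulVec _ _⟩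
  refine ⟨p, ?_, ?_, fun v => by rw [hp, hff]⟩
  · apply Matrix.toLin'.injective
    refine LinearMap.ext fun v => ?_
    rw [toLin'_apply, toLin'_apply, ← mulVec_mulVec, hp, hp]
    exact (hff _).2 (hmem v)
  · ext i j
    have h1 := hsa (Pi.single i 1) (Pi.single j 1)
    rw [← hp, ← hp, mulVec_single_one, mulVec_single_one, dotProduct_single_one,
      ← Pi.single_star, star_one, single_one_dotProduct] at h1
    exact h1

theorem trace_idem {p : Matrix B B ℂ} (hp : p * p = p) (W : Submodule ℂ (B → ℂ))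
    (hW : ∀ v, p *ᵥ v = v ↔ v ∈ W) : trace p = finrank ℂ W := by
  have h1 : LinearMap.IsProj W (Matrix.toLin' p) := by
    refine ⟨fun v => ?_, fun v hv => ?_⟩
    · rw [toLin'_apply, ← hW, mulVec_mulVec, hp]
    · rw [toLin'_apply, hW]
      exact hv
  rw [← h1.trace, Matrix.trace_toLin'_eq]

end gen

variable {g : ℕ} {Z : Matrix (Fin g) (Fin g) ℂ}

theorem D_sa (h : PM Z) : (DZ Z)ᴴ * (Om g ℂ * cm (JR Z)) = (Om g ℂ * cm (JR Z)) * DZ Z := by
  have h1 : (DZ Z)ᴴ = -(DZ Z)ᵀ := by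
    have h2 := Pool.Agent.W437.HD.DZ_conj Z
    have h3 : (DZ Z)ᴴ = ((DZ Z).map (starRingEnd ℂ))ᵀ := rfl
    rw [h3, h2, transpose_neg]
  have hJD : cm (JR Z) = Complex.I • DZ Z := by
    change _ = Complex.I • ((-Complex.I) • cm (JR Z))
    rw [smul_smul, show Complex.I * -Complex.I = 1 by simp, one_smul]
  rw [h1, neg_mul, ← mul_assoc, DZ_Om h.symm, neg_mul, neg_neg, mul_assoc, mul_assoc, hJD,
    Matrix.smul_mul, Matrix.mul_smul]

/-- **Elements of rank one.** If the signature of an irreducible submodule is coprime then the Lie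
algebra contains an element of degree one with rank one on the submodule. -/
theorem rk1_of_coprime (h : PM Z) {U : Submodule ℂ (Fin g ⊕ Fin g → ℂ)} (hU : IrS (LZ Z) U)
    (ha : 0 < finrank ℂ (U ⊓ eig Z 1 : Submodule ℂ (Fin g ⊕ Fin g → ℂ)))
    (hb : 0 < finrank ℂ (U ⊓ eig Z (-1) : Submodule ℂ (Fin g ⊕ Fin g → ℂ)))
    (hcop : Nat.Coprime (finrank ℂ (U ⊓ eig Z 1 : Submodule ℂ (Fin g ⊕ Fin g → ℂ)))
      (finrank ℂ (U ⊓ eig Z (-1) : Submodule ℂ (Fin g ⊕ Fin g → ℂ)))) : Rk1 Z U := by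
  obtain ⟨S, Si, H, hR⟩ := hermZ' h.isPer (Set.mem_singleton Z)
  rw [← img_eq] at H
  have hSSi := H.SSi
  have hSiS := H.SiS
  have hcv : ∀ u, S *ᵥ (Si *ᵥ u) = u := fun u => by rw [mulVec_mulVec, hSSi, one_mulVec]
  have hcv' : ∀ u, Si *ᵥ (S *ᵥ u) = u := fun u => by rw [mulVec_mulVec, hSiS, one_mulVec]
  have hcj : ∀ X Y : Matrix (Fin g ⊕ Fin g) (Fin g ⊕ Fin g) ℂ,
      (S * X * Si) * (S * Y * Si) = S * (X * Y) * Si := by
    intro X Y
    calc (S * X * Si) * (S * Y * Si) = S * X * (Si * S) * Y * Si := by noncomm_ring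
    _ = _ := by rw [hSiS]; noncomm_ring
  have hinjS : ∀ V : Submodule ℂ (Fin g ⊕ Fin g → ℂ),
      finrank ℂ (V.map (mulVecLin S)) = finrank ℂ V := by
    intro V
    refine finrank_map_of_inj fun u _ hu => ?_
    rw [mulVecLin_apply] at hu
    rw [← hcv' u, hu, mulVec_zero]
  have hmapS : ∀ (V : Submodule ℂ (Fin g ⊕ Fin g → ℂ)) (v : Fin g ⊕ Fin g → ℂ),
      v ∈ V.map (mulVecLin S) ↔ Si *ᵥ v ∈ V := by
    intro V v
    constructor
    · rintro ⟨u, hu, rfl⟩
      rw [mulVecLin_apply, hcv']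
      exact hu
    · intro hv
      exact ⟨_, hv, by rw [mulVecLin_apply, hcv]⟩
  obtain ⟨p, hpp, hpH, hp⟩ := exists_orth (U.map (mulVecLin S))
  have hpU : ∀ v, p *ᵥ v = v ↔ Si *ᵥ v ∈ U := fun v => by rw [hp, hmapS]
  -- equivariance
  have hstab : ∀ X ∈ LZ Z, p * (S * X * Si) * p = (S * X * Si) * p := by
    intro X hX
    apply Matrix.toLin'.injective
    refine LinearMap.ext fun v => ?_
    have h1 : Si *ᵥ (p *ᵥ v) ∈ U := by
      rw [← hpU, mulVec_mulVec, hpp]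
    have h2 : Si *ᵥ ((S * X * Si) *ᵥ (p *ᵥ v)) = X *ᵥ (Si *ᵥ (p *ᵥ v)) := by
      rw [mulVec_mulVec _ Si, ← mul_assoc, ← mul_assoc, hSiS, one_mul, ← mulVec_mulVec]
    obtain ⟨M, hM⟩ : ∃ M, M = S * X * Si := ⟨_, rfl⟩
    rw [← hM] at h2 ⊢
    rw [toLin'_apply, toLin'_apply, ← mulVec_mulVec, ← mulVec_mulVec, ← mulVec_mulVec]
    rw [hpU, h2]
    exact hU.2.1 X hX _ h1
  have hadj : ∀ X ∈ LZ Z, ∃ Y ∈ LZ Z, (S * X * Si)ᴴ = S * Y * Si := by
    intro X hX
    refine ⟨Si * Siᴴ * Xᴴ * (Sᴴ * S), H.adj X hX, ?_⟩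
    rw [conjTranspose_mul, conjTranspose_mul]
    calc Siᴴ * (Xᴴ * Sᴴ) = (1 : Matrix (Fin g ⊕ Fin g) (Fin g ⊕ Fin g) ℂ) *
          (Siᴴ * (Xᴴ * Sᴴ)) * 1 := by rw [one_mul, mul_one]
    _ = (S * Si) * (Siᴴ * (Xᴴ * Sᴴ)) * (S * Si) := by rw [hSSi]
    _ = _ := by noncomm_ring
  have hcomm : ∀ X ∈ LZ Z, p * (S * X * Si) = (S * X * Si) * p := by
    intro X hX
    obtain ⟨Y, hY, hXY⟩ := hadj X hX
    have h1 := congrArg conjTranspose (hstab Y hY)
    have h2 := hstab X hX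
    rw [← hXY] at h1
    obtain ⟨M, hM⟩ : ∃ M, M = S * X * Si := ⟨_, rfl⟩
    rw [← hM] at h1 h2 ⊢
    rw [conjTranspose_mul, conjTranspose_mul, conjTranspose_mul,
      conjTranspose_conjTranspose, hpH, ← mul_assoc, h2] at h1
    exact h1.symm
  obtain ⟨d, hd⟩ : ∃ d, d = S * DZ Z * Si := ⟨_, rfl⟩
  have hdd : d * d = 1 := by
    rw [hd, hcj, DZ_sq h.det, mul_one, hSSi]
  have hdH : dᴴ = d := by
    rw [hd]
    exact sa_conj hSSi hR (D_sa h)
  have hpd : p * d = d * p := by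
    rw [hd]
    exact hcomm _ DZ_mem
  obtain ⟨P, hP⟩ : ∃ P, P = (2 : ℂ)⁻¹ • ((1 + d) * p) := ⟨_, rfl⟩
  obtain ⟨Q, hQ⟩ : ∃ Q, Q = (2 : ℂ)⁻¹ • ((1 - d) * p) := ⟨_, rfl⟩
  have hdP : d * P = P := by
    rw [hP, Matrix.mul_smul, ← mul_assoc, mul_add, mul_one, hdd, add_comm d]
  have hdQ : d * Q = -Q := by
    rw [hQ, Matrix.mul_smul, ← mul_assoc, mul_sub, mul_one, hdd, ← neg_sub 1 d, neg_mul, smul_neg]
  have hPd : P * d = P := by
    rw [hP, Matrix.smul_mul, mul_assoc, hpd, ← mul_assoc, add_mul, one_mul, hdd, add_comm d]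
  have hQd : Q * d = -Q := by
    rw [hQ, Matrix.smul_mul, mul_assoc, hpd, ← mul_assoc, sub_mul, one_mul, hdd, ← neg_sub 1 d,
      neg_mul, smul_neg]
  have hPQs : P + Q = p := by
    rw [hP, hQ, ← smul_add, ← add_mul, add_add_sub_cancel, add_mul, one_mul, ← two_smul ℂ,
      smul_smul, inv_mul_cancel₀ two_ne_zero, one_smul]
  have hPQd : P - Q = d * p := by
    rw [← hPQs, mul_add, hdP, hdQ, sub_eq_add_neg]
  have hPp : P * p = P := by
    rw [hP, Matrix.smul_mul, mul_assoc, hpp]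
  have hQp : Q * p = Q := by
    rw [hQ, Matrix.smul_mul, mul_assoc, hpp]
  have hpP : p * P = P := by
    rw [hP, Matrix.mul_smul, ← mul_assoc, mul_add, mul_one, hpd, add_mul, hpp, mul_assoc, hpp,
      add_mul, one_mul]
  have hpQ : p * Q = Q := by
    rw [hQ, Matrix.mul_smul, ← mul_assoc, mul_sub, mul_one, hpd, sub_mul, hpp, mul_assoc, hpp,
      sub_mul, one_mul]
  have h2 : star (2 : ℂ)⁻¹ = (2 : ℂ)⁻¹ := by
    rw [star_inv₀]
    simp
  have hPH : Pᴴ = P := by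
    rw [hP, conjTranspose_smul, h2, conjTranspose_mul, conjTranspose_add, conjTranspose_one, hpH,
      hdH, mul_add, mul_one, hpd, add_mul, one_mul]
  have hQH : Qᴴ = Q := by
    rw [hQ, conjTranspose_smul, h2, conjTranspose_mul, conjTranspose_sub, conjTranspose_one, hpH,
      hdH, mul_sub, mul_one, hpd, sub_mul, one_mul]
  have hPQ : P * Q = 0 := by
    have h3 : P * Q = -(P * Q) := by
      calc P * Q = P * d * Q := by rw [hPd]
      _ = P * (d * Q) := by rw [mul_assoc]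
      _ = _ := by rw [hdQ, mul_neg]
    have h4 : (2 : ℂ) • (P * Q) = 0 := by
      rw [two_smul]
      nth_rewrite 1 [h3]
      rw [neg_add_cancel]
    exact (smul_eq_zero.1 h4).resolve_left two_ne_zero
  have hQP : Q * P = 0 := by
    have h3 := congrArg conjTranspose hPQ
    rwa [conjTranspose_mul, hPH, hQH, conjTranspose_zero] at h3
  have hPP : P * P = P := by
    have h3 : P * (P + Q) = P := by rw [hPQs, hPp]
    rwa [mul_add, hPQ, add_zero] at h3
  have hQQ : Q * Q = Q := by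
    have h3 : Q * (P + Q) = Q := by rw [hPQs, hQp]
    rwa [mul_add, hQP, zero_add] at h3
  -- traces
  have hdS : ∀ v, d *ᵥ v = S *ᵥ (DZ Z *ᵥ (Si *ᵥ v)) := fun v => by
    rw [hd, ← mulVec_mulVec, ← mulVec_mulVec]
  have hde : ∀ (c : ℂ) (v : Fin g ⊕ Fin g → ℂ), Si *ᵥ v ∈ eig Z c ↔ d *ᵥ v = c • v := by
    intro c v
    rw [mem_eig, hdS]
    constructor
    · intro h3
      rw [h3, mulVec_smul, hcv]
    · intro h3
      have h4 := congrArg (fun w => Si *ᵥ w) h3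
      rwa [hcv', mulVec_smul] at h4
  have hPv : ∀ v, P *ᵥ v = v ↔ v ∈ (U ⊓ eig Z 1).map (mulVecLin S) := by
    intro v
    rw [hmapS, Submodule.mem_inf, ← hpU, hde, one_smul]
    constructor
    · intro h3
      refine ⟨?_, ?_⟩
      · rw [← h3, mulVec_mulVec, hpP]
      · rw [← h3, mulVec_mulVec, hdP]
    · rintro ⟨h3, h4⟩
      rw [hP, smul_mulVec, ← mulVec_mulVec, h3, add_mulVec, one_mulVec, h4, ← two_smul ℂ,
        smul_smul, inv_mul_cancel₀ two_ne_zero, one_smul]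
  have hQv : ∀ v, Q *ᵥ v = v ↔ v ∈ (U ⊓ eig Z (-1)).map (mulVecLin S) := by
    intro v
    rw [hmapS, Submodule.mem_inf, ← hpU, hde, neg_one_smul]
    constructor
    · intro h3
      refine ⟨?_, ?_⟩
      · rw [← h3, mulVec_mulVec, hpQ]
      · rw [← h3, mulVec_mulVec, hdQ, neg_mulVec]
    · rintro ⟨h3, h4⟩
      rw [hQ, smul_mulVec, ← mulVec_mulVec, h3, sub_mulVec, one_mulVec, h4, sub_neg_eq_add,
        ← two_smul ℂ, smul_smul, inv_mul_cancel₀ two_ne_zero, one_smul]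
  have hlr : ∀ X, Y4.G.lr S (Si * p) X = S * X * Si * p := by
    intro X
    rw [Y4.G.lr_apply, mul_assoc]
    noncomm_ring
  have hLie : Y4.G.Lie ((LZ Z).map (Y4.G.lr S (Si * p))) P Q
      (finrank ℂ (U ⊓ eig Z 1 : Submodule ℂ (Fin g ⊕ Fin g → ℂ)))
      (finrank ℂ (U ⊓ eig Z (-1) : Submodule ℂ (Fin g ⊕ Fin g → ℂ))) := {
    br := by
      rintro _ ⟨X, hX, rfl⟩ _ ⟨Y, hY, rfl⟩
      refine ⟨X * Y - Y * X, LZ_br hX hY, ?_⟩
      rw [hlr, hlr, hlr]
      have e1 : ∀ X Y, X ∈ LZ Z → Y ∈ LZ Z →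
          S * X * Si * p * (S * Y * Si * p) = S * (X * Y) * Si * p := by
        intro X Y _ hY
        calc S * X * Si * p * (S * Y * Si * p) = S * X * Si * (p * (S * Y * Si)) * p := by
              noncomm_ring
        _ = (S * X * Si) * (S * Y * Si) * (p * p) := by rw [hcomm Y hY]; noncomm_ring
        _ = _ := by rw [hcj, hpp]
      rw [e1 X Y hX hY, e1 Y X hY hX]
      noncomm_ring
    ad := by
      rintro _ ⟨X, hX, rfl⟩
      obtain ⟨Y, hY, hXY⟩ := hadj X hX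
      refine ⟨Y, hY, ?_⟩
      rw [hlr, hlr, conjTranspose_mul, hpH, hXY, hcomm Y hY]
    PP := hPP
    QQ := hQQ
    PH := hPH
    QH := hQH
    PQ := hPQ
    QP := hQP
    D := ⟨DZ Z, DZ_mem, by rw [hlr, hPQd, hd]⟩
    lel := by
      rintro _ ⟨X, hX, rfl⟩
      rw [hPQs, hlr, ← mul_assoc, hstab X hX]
    ler := by
      rintro _ ⟨X, hX, rfl⟩
      rw [hPQs, hlr, mul_assoc _ p p, hpp]
    irr := by
      intro V hV hs
      rw [hPQs] at hV ⊢
      have h3 : V.comap (mulVecLin S) ≤ U := by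
        intro u hu
        have h4 := hV _ (Submodule.mem_comap.1 hu)
        rw [mulVecLin_apply, hpU, hcv'] at h4
        exact h4
      have h5 : Stab (LZ Z) (V.comap (mulVecLin S)) := by
        intro X hX u hu
        rw [Submodule.mem_comap, mulVecLin_apply] at hu ⊢
        have h6 := hs _ ⟨X, hX, rfl⟩ _ hu
        rw [hlr, ← mulVec_mulVec, hV _ hu, ← mulVec_mulVec, ← mulVec_mulVec, hcv'] at h6
        exact h6
      rcases hU.2.2 _ h3 h5 with h6 | h6
      · left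
        rw [Submodule.eq_bot_iff] at h6 ⊢
        intro u hu
        have h7 := h6 (Si *ᵥ u) (by
          rw [Submodule.mem_comap, mulVecLin_apply, hcv]
          exact hu)
        rw [← hcv u, h7, mulVec_zero]
      · right
        intro u hu
        rw [hpU, ← h6, Submodule.mem_comap, mulVecLin_apply, hcv] at hu
        exact hu
    trP := by rw [trace_idem hPP _ hPv, hinjS]
    trQ := by rw [trace_idem hQQ _ hQv, hinjS] }
  -- vectors
  obtain ⟨v0, hv0, hv0'⟩ := Submodule.exists_mem_ne_zero_of_ne_bot (fun h0 => by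
    rw [h0, finrank_bot] at ha
    exact lt_irrefl 0 ha : U ⊓ eig Z 1 ≠ ⊥)
  obtain ⟨w0, hw0, hw0'⟩ := Submodule.exists_mem_ne_zero_of_ne_bot (fun h0 => by
    rw [h0, finrank_bot] at hb
    exact lt_irrefl 0 hb : U ⊓ eig Z (-1) ≠ ⊥)
  obtain ⟨v, hv⟩ : ∃ v, v = S *ᵥ v0 := ⟨_, rfl⟩
  obtain ⟨w, hw⟩ : ∃ w, w = S *ᵥ w0 := ⟨_, rfl⟩
  have hvP : P *ᵥ v = v := (hPv v).2 ⟨v0, hv0, hv.symm⟩
  have hwQ : Q *ᵥ w = w := (hQv w).2 ⟨w0, hw0, hw.symm⟩
  have hw1 : star w ᵥ* Q = star w := by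
    have h3 := congrArg star hwQ
    rwa [star_mulVec, hQH] at h3
  obtain ⟨X, hX, hXR⟩ := hLie.full ha hb hcop (vecMulVec v (star w))
  have hR1 : P * vecMulVec v (star w) * Q = vecMulVec v (star w) := by
    rw [mul_vecMulVec, hvP, vecMulVec_mul, hw1]
  rw [hR1, hlr] at hXR
  refine ⟨DZ Z, Or.inl rfl, _, up_mem h hX, up_l h X, up_r h X, ?_⟩
  obtain ⟨N, hN⟩ : ∃ N, N = (1 / 4 : ℂ) • ((1 + DZ Z) * X * (1 - DZ Z)) := ⟨_, rfl⟩
  rw [← hN]
  have hNS : S * N * Si * p = vecMulVec v (star w) := by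
    have h3 : S * N * Si = (1 / 4 : ℂ) • ((1 + d) * (S * X * Si) * (1 - d)) := by
      rw [hN, Matrix.mul_smul, Matrix.smul_mul]
      congr 1
      have e1 : (1 : Matrix (Fin g ⊕ Fin g) (Fin g ⊕ Fin g) ℂ) + d = S * (1 + DZ Z) * Si := by
        rw [hd, mul_add, add_mul, mul_one, hSSi]
      have e2 : (1 : Matrix (Fin g ⊕ Fin g) (Fin g ⊕ Fin g) ℂ) - d = S * (1 - DZ Z) * Si := by
        rw [hd, mul_sub, sub_mul, mul_one, hSSi]
      rw [e1, e2, hcj, hcj]
    have h4 : (1 - d) * p = p * (1 - d) := by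
      rw [sub_mul, mul_sub, one_mul, mul_one, hpd]
    have h5 : (1 + d) * vecMulVec v (star w) = (2 : ℂ) • vecMulVec v (star w) := by
      have e1 : d * vecMulVec v (star w) = vecMulVec v (star w) := by
        rw [← hR1, ← mul_assoc, ← mul_assoc, hdP]
      rw [add_mul, one_mul, e1, two_smul]
    have h6 : vecMulVec v (star w) * (1 - d) = (2 : ℂ) • vecMulVec v (star w) := by
      have e1 : vecMulVec v (star w) * d = -vecMulVec v (star w) := by
        rw [← hR1, mul_assoc _ Q d, hQd, mul_neg]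
      rw [mul_sub, mul_one, e1, sub_neg_eq_add, two_smul]
    rw [h3, Matrix.smul_mul, mul_assoc _ (1 - d) p, h4, ← mul_assoc, mul_assoc (1 + d), hXR, h5,
      Matrix.smul_mul, h6, smul_smul, smul_smul]
    norm_num
  have hNu : ∀ u ∈ U, N *ᵥ u = (star w ⬝ᵥ (S *ᵥ u)) • v0 := by
    intro u hu
    have h3 : p *ᵥ (S *ᵥ u) = S *ᵥ u := by
      rw [hpU, hcv']
      exact hu
    have h4 : (S * N * Si * p) *ᵥ (S *ᵥ u) = S *ᵥ (N *ᵥ u) := by
      rw [← mulVec_mulVec, h3, ← mulVec_mulVec, ← mulVec_mulVec, hcv']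
    rw [hNS, vecMulVec_mulVec, op_smul_eq_smul] at h4
    rw [← hcv' (N *ᵥ u), ← h4, mulVec_smul, hv, hcv']
  have hspan : U.map (mulVecLin N) = Submodule.span ℂ {v0} := by
    apply le_antisymm
    · rintro _ ⟨u, hu, rfl⟩
      rw [mulVecLin_apply, hNu u hu]
      exact Submodule.smul_mem _ _ (Submodule.mem_span_singleton_self v0)
    · rw [Submodule.span_singleton_le_iff_mem]
      have h3 : star w ⬝ᵥ w ≠ 0 := by
        intro h4
        rw [dotProduct_star_self_eq_zero] at h4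
        apply hw0'
        rw [← hcv' w0, ← hw, h4, mulVec_zero]
      refine ⟨(star w ⬝ᵥ w)⁻¹ • w0, U.smul_mem _ hw0.1, ?_⟩
      rw [map_smul, mulVecLin_apply, hNu w0 hw0.1, ← hw, smul_smul, inv_mul_cancel₀ h3, one_smul]
  rw [hspan]
  exact finrank_span_singleton hv0'

/-- **Rank one elements: coprime signature.** -/
theorem rk1_of_coprime' (h : PM Z) {U : Submodule ℂ (Fin g ⊕ Fin g → ℂ)} (hU : IrS (LZ Z) U)
    (hcop : Nat.Coprime (pd Z U) (qd Z U)) (hn : 2 ≤ finrank ℂ U) : Rk1 Z U := by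
  have h1 := pd_add_qd h hU.2.1
  refine rk1_of_coprime h hU (Nat.pos_of_ne_zero fun h0 => ?_) (Nat.pos_of_ne_zero fun h0 => ?_)
    hcop
  · have h2 : pd Z U = 0 := h0
    rw [h2, Nat.coprime_zero_left] at hcop
    omega
  · have h2 : qd Z U = 0 := h0
    rw [h2, Nat.coprime_zero_right] at hcop
    omega

/-- The general form of the unitary case: coprime signature. -/
def JCop : Prop :=
  ∀ (g : ℕ) (Z : Matrix (Fin g) (Fin g) ℂ) (_h : PM Z) (_hs : IsSimpleAV Z)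
    (U : Submodule ℂ (Fin g ⊕ Fin g → ℂ)) (_hU : IrS (LZ Z) U)
    (_hc : Nat.Coprime (pd Z U) (qd Z U)) (_hn : 2 ≤ finrank ℂ U), Rk1 Z U

theorem jcop : JCop := fun _ _ h _ _ hU hc hn => rk1_of_coprime' h hU hc hn

/-- **Rank one elements: the unitary case.** -/
theorem juni : Y4.P.JUni := by
  intro g Z h _ hg _ U hU hn _
  have hne : ∀ c : ℂ, c = 1 ∨ c = -1 → ¬U ≤ eig Z c := by
    intro c hc hle
    have heg : finrank ℂ (eig Z c) = g := by
      rcases hc with rfl | rfl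
      · exact (finrank_eig h).1
      · exact (finrank_eig h).2
    have h1 : U = eig Z c := Submodule.eq_of_le_of_finrank_eq hle (by rw [hn, heg])
    have h2 := finrank_one_of_comm (comm_of_stab h hc (by rw [← h1]; exact hU.2.1)) hU
    have h3 := hg.two_le
    omega
  have h1 : (U ⊓ eig Z 1) ⊔ (U ⊓ eig Z (-1)) = U := by
    apply le_antisymm (sup_le inf_le_left inf_le_left)
    intro u hu
    have h2 : DZ Z *ᵥ (DZ Z *ᵥ u) = u := by rw [mulVec_mulVec, DZ_sq h.det, one_mulVec]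
    have h3 : DZ Z *ᵥ u ∈ U := hU.2.1 _ DZ_mem u hu
    have h4 : u = (1 / 2 : ℂ) • (u + DZ Z *ᵥ u) + (1 / 2 : ℂ) • (u - DZ Z *ᵥ u) := by module
    rw [h4]
    refine Submodule.add_mem_sup ⟨U.smul_mem _ (U.add_mem hu h3), ?_⟩
      ⟨U.smul_mem _ (U.sub_mem hu h3), ?_⟩
    · rw [SetLike.mem_coe, mem_eig, mulVec_smul, mulVec_add, h2]
      module
    · rw [SetLike.mem_coe, mem_eig, mulVec_smul, mulVec_sub, h2]
      module
  have h2 : (U ⊓ eig Z 1) ⊓ (U ⊓ eig Z (-1)) = ⊥ := by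
    rw [eq_bot_iff, ← eig_inf (Z := Z) 1 (-1) (by norm_num)]
    exact inf_le_inf inf_le_right inf_le_right
  have h3 := finrank_split h2 h1
  rw [hn] at h3
  have h4 : ∀ c : ℂ, c = 1 ∨ c = -1 →
      finrank ℂ (U ⊓ eig Z c : Submodule ℂ (Fin g ⊕ Fin g → ℂ)) ≠ g := by
    intro c hc h5
    apply hne c hc
    have h6 : U ⊓ eig Z c = U := Submodule.eq_of_le_of_finrank_eq inf_le_left (by rw [h5, hn])
    exact inf_eq_left.1 h6
  have h5 := h4 1 (Or.inl rfl)
  have h6 := h4 (-1) (Or.inr rfl)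
  have ha : 0 < finrank ℂ (U ⊓ eig Z 1 : Submodule ℂ (Fin g ⊕ Fin g → ℂ)) := by omega
  have hb : 0 < finrank ℂ (U ⊓ eig Z (-1) : Submodule ℂ (Fin g ⊕ Fin g → ℂ)) := by omega
  have key : ∀ a b : ℕ, 0 < a → 0 < b → a + b = g → Nat.Coprime a b := by
    intro a b ha hb hab
    have h7 : Nat.Coprime g a := (Nat.Prime.coprime_iff_not_dvd hg).2 fun hd => by
      have h8 := Nat.le_of_dvd ha hd
      omega
    rw [← hab, Nat.coprime_self_add_left] at h7
    exact h7.symm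
  exact rk1_of_coprime h hU ha hb (key _ _ ha hb h3)

end

end Pool.Agent.Y319.P
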